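import Pool.Agent.Helper95.Lin.GoalsJ
import Pool.Agent.Helper11.Abund.Herm

/-! # Packet DKMET: the pull back of a Kähler metric under a local biholomorphism -/

open Complex Metric Set Filter Topology MeasureTheory
open scoped ContDiff ComplexConjugate ComplexOrder Manifold

namespace Pool.Agent.Helper34.Lin

open Pool.Agent.Helper16.Abund Pool.Agent.Helper92.Orb Pool.Agent.Helper95.Lin
  Pool.Agent.Helper11.Abund

universe u v

/-- The pull back of a matrix under a linear map. -/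
noncomputable def pullM {n : ℕ} (J : (Fin n → ℂ) →L[ℂ] (Fin n → ℂ))
    (A : Matrix (Fin n) (Fin n) ℂ) : Matrix (Fin n) (Fin n) ℂ :=
  Matrix.of fun i j => herm A (J (Pi.single i 1)) (J (Pi.single j 1))

theorem herm_sum_left {n : ℕ} {ι : Type} (s : Finset ι) (A : Matrix (Fin n) (Fin n) ℂ)
    (f : ι → Fin n → ℂ) (v : Fin n → ℂ) :
    herm A (∑ i ∈ s, f i) v = ∑ i ∈ s, herm A (f i) v := by
  classical
  induction s using Finset.induction_on with
  | empty => simp [herm]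
  | insert a s ha ih => rw [Finset.sum_insert ha, Finset.sum_insert ha, herm_add_left, ih]

theorem herm_sum_right {n : ℕ} {ι : Type} (s : Finset ι) (A : Matrix (Fin n) (Fin n) ℂ)
    (u : Fin n → ℂ) (f : ι → Fin n → ℂ) :
    herm A u (∑ i ∈ s, f i) = ∑ i ∈ s, herm A u (f i) := by
  classical
  induction s using Finset.induction_on with
  | empty => simp [herm]
  | insert a s ha ih => rw [Finset.sum_insert ha, Finset.sum_insert ha, herm_add_right, ih]

theorem expand {n : ℕ} (J : (Fin n → ℂ) →L[ℂ] (Fin n → ℂ)) (u : Fin n → ℂ) :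
    J u = ∑ i, u i • J (Pi.single i 1) := by
  conv_lhs => rw [pi_eq_sum_univ' u]
  rw [map_sum]
  refine Finset.sum_congr rfl fun i _ => ?_
  rw [map_smul]

theorem herm_pullM {n : ℕ} (J : (Fin n → ℂ) →L[ℂ] (Fin n → ℂ)) (A : Matrix (Fin n) (Fin n) ℂ)
    (u v : Fin n → ℂ) : herm (pullM J A) u v = herm A (J u) (J v) := by
  rw [expand J u, expand J v, herm_sum_left]
  unfold herm
  refine Finset.sum_congr rfl fun i _ => ?_
  have h := herm_sum_right Finset.univ A (u i • J (Pi.single i 1))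
    (fun j => v j • J (Pi.single j 1))
  unfold herm at h
  rw [h]
  refine Finset.sum_congr rfl fun j _ => ?_
  have h2 := herm_smul_left (A := A) (u i) (J (Pi.single i 1)) (v j • J (Pi.single j 1))
  have h3 := herm_smul_right (A := A) (v j) (J (Pi.single i 1)) (J (Pi.single j 1))
  unfold herm at h2 h3
  rw [h2, h3]
  simp only [pullM, Matrix.of_apply, herm]
  ring

theorem pullM_posDef {n : ℕ} (J : (Fin n → ℂ) →L[ℂ] (Fin n → ℂ)) (hJ : Function.Injective J)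
    {A : Matrix (Fin n) (Fin n) ℂ} (hA : A.PosDef) : (pullM J A).PosDef := by
  apply posDef_of_herm
  · ext i j
    rw [Matrix.conjTranspose_apply]
    simp only [pullM, Matrix.of_apply]
    exact herm_conj hA.1 _ _
  · intro u hu
    rw [herm_pullM]
    apply herm_pos hA
    intro h
    apply hu
    apply hJ
    rw [h, map_zero]

section pull

variable {n : ℕ} {X : Type u} {Y : Type v} [TopologicalSpace X] [ChartedSpace (Fin n → ℂ) X]
  [TopologicalSpace Y] [ChartedSpace (Fin n → ℂ) Y]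

/-- The differential of `P` in the preferred charts. -/
noncomputable def dP (P : Y → X) (y : Y) : (Fin n → ℂ) →L[ℂ] (Fin n → ℂ) :=
  mfderiv 𝓘(ℂ, Fin n → ℂ) 𝓘(ℂ, Fin n → ℂ) P y

theorem dP_inj [IsManifold 𝓘(ℂ, Fin n → ℂ) ω X] [IsManifold 𝓘(ℂ, Fin n → ℂ) ω Y] {P : Y → X}
    (hP : IsLocalDiffeomorph 𝓘(ℂ, Fin n → ℂ) 𝓘(ℂ, Fin n → ℂ) ω P) (y : Y) :
    Function.Injective (dP (n := n) P y) := by
  have h := (hP.mfderivToContinuousLinearEquiv (by simp) y).injective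
  exact h

theorem dvec_comp {P : Y → X} (hP : MDifferentiable 𝓘(ℂ, Fin n → ℂ) 𝓘(ℂ, Fin n → ℂ) P)
    {ψ : (Fin n → ℂ) → Y} {z : Fin n → ℂ}
    (hψ : MDifferentiableAt 𝓘(ℂ, Fin n → ℂ) 𝓘(ℂ, Fin n → ℂ) ψ z) (u : Fin n → ℂ) :
    dvec n (P ∘ ψ) z u = dP P (ψ z) (dvec n ψ z u) := by
  unfold dvec dmap dP
  rw [mfderiv_comp z (hP (ψ z)) hψ]
  rfl

theorem tvec_comp {P : Y → X} (hP : MDifferentiable 𝓘(ℂ, Fin n → ℂ) 𝓘(ℂ, Fin n → ℂ) P)
    {T : Y → Y} (hT : MDifferentiable 𝓘(ℂ, Fin n → ℂ) 𝓘(ℂ, Fin n → ℂ) T)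
    (hPT : ∀ v, P (T v) = P v) (y : Y) (u : Fin n → ℂ) :
    dP P (T y) (tvec n T y u) = dP P y u := by
  unfold tvec tmap dP
  have h : P ∘ T = P := funext hPT
  have h1 := mfderiv_comp y (hP (T y)) (hT y)
  rw [h] at h1
  rw [h1]
  rfl

theorem pull [IsManifold 𝓘(ℂ, Fin n → ℂ) ω X] [IsManifold 𝓘(ℂ, Fin n → ℂ) ω Y] {P : Y → X}
    (hP : IsLocalDiffeomorph 𝓘(ℂ, Fin n → ℂ) 𝓘(ℂ, Fin n → ℂ) ω P)
    {g : X → Matrix (Fin n) (Fin n) ℂ} (hg : KahlerMetric n X g) :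
    ∃ h : Y → Matrix (Fin n) (Fin n) ℂ, KahlerMetric n Y h ∧
      ∀ T : Y → Y, MDifferentiable 𝓘(ℂ, Fin n → ℂ) 𝓘(ℂ, Fin n → ℂ) T → (∀ v, P (T v) = P v) →
        InvMetric n h T := by
  have hPd : MDifferentiable 𝓘(ℂ, Fin n → ℂ) 𝓘(ℂ, Fin n → ℂ) P := hP.mdifferentiable (by simp)
  refine ⟨fun y => pullM (dP P y) (g (P y)), ⟨fun y => pullM_posDef _ (dP_inj hP y) (hg.1 _), ?_⟩,
    ?_⟩
  · intro V ψ hψ
    have hcomp : HoloOn n (P ∘ ψ) V :=
      ⟨hψ.1, fun z hz => (hPd (ψ z)).comp_mdifferentiableWithinAt z (hψ.2 z hz)⟩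
    obtain ⟨hs, hc⟩ := hg.2 V (P ∘ ψ) hcomp
    have hat : ∀ z ∈ V, MDifferentiableAt 𝓘(ℂ, Fin n → ℂ) 𝓘(ℂ, Fin n → ℂ) ψ z := fun z hz =>
      (hψ.2 z hz).mdifferentiableAt (hψ.1.mem_nhds hz)
    have heq : ∀ z ∈ V, ∀ u v, metricForm n (fun y => pullM (dP P y) (g (P y))) ψ z u v =
        metricForm n g (P ∘ ψ) z u v := by
      intro z hz u v
      unfold metricForm
      rw [herm_pullM, dvec_comp hPd (hat z hz), dvec_comp hPd (hat z hz)]
      rfl
    have hfd : ∀ z ∈ V, ∀ u v, fderiv ℝ (fun z => metricForm n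
        (fun y => pullM (dP P y) (g (P y))) ψ z u v) z =
        fderiv ℝ (fun z => metricForm n g (P ∘ ψ) z u v) z := by
      intro z hz u v
      apply Filter.EventuallyEq.fderiv_eq
      filter_upwards [hψ.1.mem_nhds hz] with w hw
      exact heq w hw u v
    constructor
    · intro u v
      exact (hs u v).congr fun z hz => heq z hz u v
    · intro z hz u v w
      rw [hfd z hz, hfd z hz, hfd z hz]
      exact hc z hz u v w
  · intro T hT hPT y u v
    simp only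
    rw [herm_pullM, herm_pullM, tvec_comp hPd hT hPT, tvec_comp hPd hT hPT, hPT]

end pull

instance {b : ℕ} {D : Set (Fin b → ℂ)} (hD : IsOpen D) (k : ℕ) :
    IsManifold 𝓘(ℂ, Fin (b + k) → ℂ) ω (TorTube hD k) :=
  inferInstanceAs (IsManifold 𝓘(ℂ, Fin (b + k) → ℂ) ω (tube D hD k))

theorem dkmet : S_DKMET.{u} := by
  intro b D hD X _ _ _ P hP ⟨g, hg⟩
  exact pull hP.2.2 hg

end Pool.Agent.Helper34.Lin
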